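import Pool.Agent.H6.Dist

namespace Pool.Agent.Results.MP_3951c0_co.Counter

open Finset

variable {V : Type} [Fintype V]

/-- The eccentricity of `v`. -/
noncomputable def ecc (G : SimpleGraph V) (v : V) : ℕ := univ.sup fun u => G.dist u v

/-- `f` is a broadcast: `f v ≤ e(v)`. -/
def IsBroadcast (G : SimpleGraph V) (f : V → ℕ) : Prop := ∀ v, f v ≤ ecc G v

/-- Every vertex hears `f` from some vertex. -/
def Dominating (G : SimpleGraph V) (f : V → ℕ) : Prop :=
  ∀ u, ∃ v, 0 < f v ∧ G.dist u v ≤ f v

/-- A minimal dominating broadcast. -/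
def MinDom (G : SimpleGraph V) (f : V → ℕ) : Prop :=
  IsBroadcast G f ∧ Dominating G f ∧
    ∀ g, IsBroadcast G g → (∀ v, g v ≤ f v) → Dominating G g → g = f

/-- The upper broadcast number. -/
noncomputable def upper (G : SimpleGraph V) : ℕ := sSup {c | ∃ f, MinDom G f ∧ ∑ v, f v = c}

/-- `K₅ □ K₂` minus one rung: cliques on the even and on the odd vertices, rungs `2i, 2i+1`
for `i < 4`. -/
def H : SimpleGraph (Fin 10) := SimpleGraph.fromRel fun u v =>
  u.1 % 2 = v.1 % 2 ∨ (u.1 / 2 = v.1 / 2 ∧ u.1 < 8)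

instance : DecidableRel H.Adj := fun u v => by unfold H; infer_instance

/-- The distance table of `H`. -/
def D (u v : Fin 10) : ℕ :=
  if u = v then 0 else if H.Adj u v then 1 else if 8 ≤ u.1 ∧ 8 ≤ v.1 then 3 else 2

/-- The subgraph `K₄ □ K₂` on the first eight vertices. -/
def G : SimpleGraph (Fin 8) := H.comap (Fin.castLE (by norm_num))

instance : DecidableRel G.Adj := fun u v => by unfold G; infer_instance

theorem result : ∃ (G : SimpleGraph (Fin 8)) (H : SimpleGraph (Fin 10)) (φ : G ↪g H),
    G.Connected ∧ H.Connected ∧ (∀ u v, G.dist u v = H.dist (φ u) (φ v)) ∧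
      upper H < upper G := by
  have hH := Pool.Agent.H6.Dist.reach_dist H D (by decide) (by decide +kernel) (by decide +kernel)
  have hG := Pool.Agent.H6.Dist.reach_dist G
    (fun u v => D (Fin.castLE (by norm_num) u) (Fin.castLE (by norm_num) v))
    (by decide) (by decide +kernel) (by decide +kernel)
  have eH : ∀ v, ecc H v ≤ 3 := fun v => Finset.sup_le fun u _ => by
    rw [(hH u v).2]; revert u v; decide +kernel
  have eG : ∀ v, ecc G v ≤ 3 := fun v => Finset.sup_le fun u _ => by
    rw [(hG u v).2]; revert u v; decide +kernel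
  refine ⟨G, H, ⟨⟨Fin.castLE (by norm_num), Fin.castLE_injective _⟩, Iff.rfl⟩,
    ⟨fun u v => (hG u v).1⟩, ⟨fun u v => (hH u v).1⟩,
    fun u v => (hG u v).2.trans (hH _ _).2.symm, ?_⟩
  have h1 : upper H ≤ 3 := by
    refine csSup_le' ?_
    rintro c ⟨f, ⟨f1, f2, f3⟩, rfl⟩
    have key : ∀ g : Fin 10 → ℕ, (∀ v, g v ≤ f v) → (∀ u, ∃ v, 0 < g v ∧ D u v ≤ g v) →
        ∑ v, g v ≤ 3 → ∑ v, f v ≤ 3 := by
      intro g g1 g2 g3
      rw [← f3 g (fun v => (g1 v).trans (f1 v)) g1 fun u => by
        simpa only [(hH _ _).2] using g2 u]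
      exact g3
    by_cases c1 : ∃ v, (if v.1 < 8 then 2 else 3) ≤ f v
    · obtain ⟨v, hv⟩ := c1
      refine key (fun u => if u = v then (if v.1 < 8 then 2 else 3) else 0) (fun u => ?_) ?_ ?_
      · split_ifs with h <;> simp_all
      · clear hv; revert v; decide +kernel
      · clear hv; revert v; decide +kernel
    · push Not at c1
      obtain ⟨a, a1, a2⟩ := f2 8
      obtain ⟨b, b1, b2⟩ := f2 9
      rw [(hH _ _).2] at a2 b2
      have ha : a.1 % 2 = 0 := by
        have := a2.trans_lt (c1 a)
        clear a1 a2; revert a; decide +kernel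
      have hb : b.1 % 2 = 1 := by
        have := b2.trans_lt (c1 b)
        clear b1 b2; revert b; decide +kernel
      refine key (fun u => if u = a ∨ u = b then 1 else 0) (fun u => ?_) ?_ ?_
      · split_ifs with h
        · rcases h with rfl | rfl <;> assumption
        · exact Nat.zero_le _
      · clear a1 a2 b1 b2; revert a b; decide +kernel
      · clear a1 a2 b1 b2; revert a b; decide +kernel
  have h2 : 4 ≤ upper G := by
    refine le_csSup ⟨8 * 3, ?_⟩ ⟨fun v => v.1 % 2, ⟨fun v => ?_, fun u => ?_, ?_⟩, by decide⟩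
    · rintro c ⟨f, ⟨f1, -⟩, rfl⟩
      simpa using Finset.sum_le_card_nsmul univ f 3 fun v _ => (f1 v).trans (eG v)
    · refine le_trans ?_ (Finset.le_sup (f := fun u => G.dist u v) (mem_univ 0))
      simp only [(hG _ _).2]
      revert v; decide +kernel
    · simp only [(hG _ _).2]
      revert u; decide +kernel
    · intro g _ g1 g2
      funext v
      refine le_antisymm (g1 v) ?_
      have h : ∀ v : Fin 8, v.1 % 2 = 0 ∨ ∃ u : Fin 8, ∀ w : Fin 8, 0 < w.1 % 2 →
          D (Fin.castLE (by norm_num) u) (Fin.castLE (by norm_num) w) ≤ w.1 % 2 → w = v := by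
        decide +kernel
      rcases h v with h | ⟨u, hu⟩
      · omega
      · obtain ⟨w, w1, w2⟩ := g2 u
        rw [(hG _ _).2] at w2
        have := hu w (w1.trans_le (g1 w)) (w2.trans (g1 w))
        subst this
        omega
  omega

end Pool.Agent.Results.MP_3951c0_co.Counter
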